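import Pool.Agent.N225.CV.Irr
import Pool.Agent.N225.CV.Nd
import Pool.Agent.N162.HN.Stm

/-!
All relations between the coordinates of the generic point of a smooth hypersurface follow from its
equation (HN/IRR), and points with a nonzero Jacobian are generic (HN/ND).
-/

set_option autoImplicit false

namespace Pool.Agent.N2.HN

open MvPolynomial Pool.Agent.N225.CV

theorem irr_ : Pool.Agent.N162.HN.StIRR := by
  intro n K _ _ F d x hn hsm hF hd hx0 hxF hgen htr P hP
  have hF0 : F ≠ 0 := by
    rintro rfl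
    obtain ⟨l, hl⟩ := hsm (fun _ => 1) (fun h => one_ne_zero (congrFun h 0))
    rw [map_zero, map_zero] at hl
    exact hl rfl
  have hirr := irreducible_of_smooth (by omega) (by omega) hF hF0 hsm
  have hpr := prime_dh hF hd hirr
  set F1 : MvPolynomial (Fin (n + 1)) ℂ := dh F with hF1
  have hI : (Ideal.span {F1}).IsPrime := (Ideal.span_singleton_prime hpr.ne_zero).2 hpr
  -- the coordinate ring has transcendence degree at most `n`
  have hB : Algebra.trdeg ℂ (MvPolynomial (Fin (n + 1)) ℂ ⧸ Ideal.span {F1}) ≤ (n : ℕ) := by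
    refine trdeg_le_of fun s hs => ?_
    choose s' hs' using fun i => Ideal.Quotient.mkₐ_surjective ℂ (Ideal.span {F1}) (s i)
    have h1 := drop (Ideal.Quotient.mkₐ ℂ (Ideal.span {F1})) (n := n + 1) (by simp) (by
      intro hinj
      have h2 : Ideal.Quotient.mkₐ ℂ (Ideal.span {F1}) F1 =
          Ideal.Quotient.mkₐ ℂ (Ideal.span {F1}) 0 := by
        rw [map_zero]
        exact Ideal.Quotient.eq_zero_iff_mem.2 (Ideal.mem_span_singleton_self _)
      exact hpr.ne_zero (hinj h2)) s'
    apply h1
    have h3 : (Ideal.Quotient.mkₐ ℂ (Ideal.span {F1})) ∘ s' = s := funext hs'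
    rw [h3]
    exact hs
  -- the map to `K`
  have hx' := aeval_dh x hx0
  let φ : (MvPolynomial (Fin (n + 1)) ℂ ⧸ Ideal.span {F1}) →ₐ[ℂ] K :=
    Ideal.Quotient.liftₐ _ (aeval fun i : Fin (n + 1) => x (Fin.succ i)) (by
      intro a ha
      obtain ⟨b, rfl⟩ := Ideal.mem_span_singleton.1 ha
      rw [map_mul, hF1, hx', hxF, zero_mul])
  have hφ : ∀ a, φ (Ideal.Quotient.mk _ a) = aeval (fun i : Fin (n + 1) => x (Fin.succ i)) a :=
    fun a => rfl
  have hinj : Function.Injective φ := by
    by_contra hni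
    obtain ⟨s, hs⟩ := exists_pair x hgen (n := n) (by simpa using htr)
    have h1 := drop φ hB hni (fun i => Ideal.Quotient.mk _ (dh (X (s i))))
    apply h1
    have h2 : φ ∘ (fun i => Ideal.Quotient.mk (Ideal.span {F1}) (dh (X (s i)))) =
        fun i => x (s i) := by
      funext i
      rw [Function.comp_apply, hφ, hx', aeval_X]
    rw [h2]
    exact hs
  have h3 : Ideal.Quotient.mk (Ideal.span {F1}) (dh P) = 0 := by
    apply hinj
    rw [hφ, hx', hP, map_zero]
  obtain ⟨Q, hQ⟩ := Ideal.mem_span_singleton.1 (Ideal.Quotient.eq_zero_iff_mem.1 h3)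
  refine ⟨rename Fin.succ Q, fun L _ _ q hq0 => ?_⟩
  rw [← aeval_dh q hq0 P, hQ, map_mul, hF1, aeval_dh q hq0, aeval_rename]
  rfl

/-- dependent coordinates: a linear combination of the derivations kills all coordinates -/
theorem exists_comb {n m : ℕ} {Ω : Type} [Field Ω] [Algebra ℂ Ω] (D : Fin n → Derivation ℂ Ω Ω)
    (p : Fin m → Ω) (h : ∀ s : Fin n → Fin m, ¬ AlgebraicIndependent ℂ (fun i => p (s i))) :
    ∃ b : Fin n → Ω, b ≠ 0 ∧ ∀ j, ∑ i, b i * D i (p j) = 0 := by
  classical
  obtain ⟨u, -, hu⟩ := exists_maximal_algebraicIndependent (R := ℂ) (A := Ω) ∅ (Set.range p)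
    (Set.empty_subset _) ((algebraicIndependent_empty_iff ℂ Ω).mpr
      (FaithfulSMul.algebraMap_injective ℂ Ω))
  have hu1 : AlgebraicIndepOn ℂ id u := hu.prop.1
  have hu2 : u ⊆ Set.range p := hu.prop.2
  have hfin : u.Finite := (Set.finite_range p).subset hu2
  have : Fintype u := hfin.fintype
  have hcard : Fintype.card u < n := by
    by_contra hc
    push Not at hc
    obtain ⟨e⟩ : Nonempty (Fin n ↪ u) := by
      apply Function.Embedding.nonempty_of_card_le
      rw [Fintype.card_fin]
      exact hc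
    choose s hs using fun i : Fin n => hu2 (e i).2
    apply h s
    have h2 : (fun i => p (s i)) = (fun a : u => id (a : Ω)) ∘ e := by
      funext i
      exact hs i
    rw [h2]
    exact hu1.comp e e.injective
  let φ : (Fin n → Ω) →ₗ[Ω] (u → Ω) :=
    { toFun := fun b z => ∑ i, b i * D i z.1
      map_add' := fun b b' => by
        funext z
        simp only [Pi.add_apply, add_mul, Finset.sum_add_distrib]
      map_smul' := fun r b => by
        funext z
        simp only [Pi.smul_apply, smul_eq_mul, RingHom.id_apply, Finset.mul_sum, mul_assoc] }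
  have hker : LinearMap.ker φ ≠ ⊥ := by
    apply LinearMap.ker_ne_bot_of_finrank_lt
    rw [Module.finrank_fintype_fun_eq_card, Module.finrank_fintype_fun_eq_card, Fintype.card_fin]
    exact hcard
  obtain ⟨b, hb, hb0⟩ := (Submodule.ne_bot_iff _).1 hker
  refine ⟨b, hb0, ?_⟩
  have hb' : ∀ z ∈ u, ∑ i, b i * D i z = 0 := fun z hz => congrFun (LinearMap.mem_ker.1 hb) ⟨z, hz⟩
  let E : Derivation ℂ Ω Ω := ∑ i, b i • D i
  have hE : ∀ z, E z = ∑ i, b i * D i z := by
    intro z
    have h1 := congrFun (map_sum (Derivation.coeFnAddMonoidHom : Derivation ℂ Ω Ω →+ Ω → Ω)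
      (fun i => b i • D i) Finset.univ) z
    rw [Finset.sum_apply] at h1
    exact h1
  let L : IntermediateField ℂ Ω := IntermediateField.adjoin ℂ u
  have hL : ∀ l ∈ L, E l = 0 := by
    intro l hl
    induction hl using IntermediateField.adjoin_induction with
    | mem z hz => rw [hE, hb' z hz]
    | algebraMap c => exact E.map_algebraMap c
    | add z w _ _ hz hw => rw [map_add, hz, hw, add_zero]
    | inv z _ hz => rw [Derivation.leibniz_inv, hz, smul_zero]
    | mul z w _ _ hz hw => rw [Derivation.leibniz, hz, hw, smul_zero, smul_zero, add_zero]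
  intro j
  rw [← hE]
  by_cases hj : p j ∈ u
  · rw [hE, hb' _ hj]
  · have halg : IsAlgebraic (Algebra.adjoin ℂ u) (p j) := by
      by_contra hna
      have h1 : AlgebraicIndepOn ℂ id (insert (p j) u) := by
        rw [AlgebraicIndepOn.insert_iff hj, Set.image_id]
        exact ⟨hu1, hna⟩
      have h2 := hu.eq_of_subset ⟨h1, Set.insert_subset ⟨j, rfl⟩ hu2⟩ (Set.subset_insert _ _)
      apply hj
      rw [h2]
      exact Set.mem_insert _ _
    exact der_alg E L hL (IntermediateField.isAlgebraic_adjoin_iff.2 halg)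

theorem det_zero' {n : ℕ} {Ω : Type} [Field Ω] [Algebra ℂ Ω] (D : Fin n → Derivation ℂ Ω Ω)
    (p c : Fin (n + 2) → Ω)
    (h : ∀ s : Fin n → Fin (n + 2), ¬ AlgebraicIndependent ℂ (fun i => p (s i))) :
    (Pool.Agent.Y184.NT.rows c p D).det = 0 := by
  obtain ⟨b, hb0, hb⟩ := exists_comb D p h
  apply Matrix.exists_vecMul_eq_zero_iff.1
  refine ⟨Fin.cons 0 (Fin.cons 0 b), ?_, ?_⟩
  · intro h1
    apply hb0
    funext i
    have := congrFun h1 i.succ.succ
    simpa using this
  · funext j
    rw [Matrix.vecMul, dotProduct, Fin.sum_univ_succ, Fin.sum_univ_succ]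
    simp only [Fin.cons_zero, Fin.cons_succ, zero_mul, zero_add, Pi.zero_apply]
    exact hb j

theorem nd_ : Pool.Agent.N162.HN.StND := by
  intro n K Ω _ _ _ _ F d x hn hsm hF hd hx0 hxF hgen htr hrel D p c hp0 hpF hdet
  let e : MvPolynomial (Fin (n + 2)) ℂ →ₐ[ℂ] K := aeval x
  let f : MvPolynomial (Fin (n + 2)) ℂ →ₐ[ℂ] e.range := e.rangeRestrict
  have hf : Function.Surjective f := e.rangeRestrict_surjective
  let ψ : e.range →ₐ[ℂ] Ω := AlgHom.liftOfSurjective f hf (aeval p) (by
    intro P hP
    have h1 : aeval x P = 0 := by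
      have h2 := congrArg Subtype.val (show f P = 0 from hP)
      exact h2
    obtain ⟨R, hR⟩ := hrel P h1
    show aeval p P = 0
    rw [hR Ω p hp0, hpF, zero_mul])
  have hψ : ∀ P, ψ (f P) = aeval p P := fun P => AlgHom.liftOfSurjective_apply f hf _ _ P
  have hB : Algebra.trdeg ℂ e.range ≤ (n : ℕ) := by
    have h1 := trdeg_le_of_injective e.range.val Subtype.val_injective
    rw [htr] at h1
    simpa using h1
  have hinj : Function.Injective ψ := by
    by_contra hni
    apply hdet
    apply det_zero'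
    intro s hind
    apply drop ψ hB hni (fun i => f (X (s i)))
    have h1 : ψ ∘ (fun i => f (X (s i))) = fun i => p (s i) := by
      funext l
      exact (hψ (X (s l))).trans (aeval_X _ _)
    rw [h1]
    exact hind
  have hfr : IsFractionRing e.range K := by
    refine IsFractionRing.of_field _ _ fun z => ?_
    have h1 : z ∈ IntermediateField.adjoin ℂ (Set.range x) := by rw [hgen]; trivial
    obtain ⟨r, hr, s, hs, hz⟩ := IntermediateField.mem_adjoin_iff_div.1 h1
    rw [Algebra.adjoin_range_eq_range_aeval] at hr hs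
    exact ⟨⟨r, hr⟩, ⟨s, hs⟩, hz⟩
  refine ⟨IsFractionRing.liftAlgHom (K := K) hinj, fun j => ?_⟩
  have h1 : x j = algebraMap e.range K (f (X j)) := by
    change x j = aeval x (X j)
    rw [aeval_X]
  rw [h1, IsFractionRing.liftAlgHom_apply, IsFractionRing.lift_algebraMap]
  exact (hψ (X j)).trans (aeval_X _ _)

end Pool.Agent.N2.HN
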